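import Mathlib

namespace Pool.Agent.Results.MP_e13ffb_co.Counter

open Set

/-- An integer point viewed in real space. -/
def emb {d : ℕ} (y : Fin d → ℤ) : Fin d → ℝ := fun i => (y i : ℝ)

def IntConvex {d : ℕ} (S : Set (Fin d → ℤ)) : Prop :=
  ∀ x ∈ convexHull ℝ (emb '' S),
    x ∈ convexHull ℝ (emb '' (S ∩ {y | ∀ i, |x i - (y i : ℝ)| < 1}))

def Parallelogram {d : ℕ} (k : ℕ) (A B : Set (Fin d → ℤ)) : Prop :=
  ∀ k' : ℕ, 1 ≤ k' → k' ≤ k → ∀ a b : Fin k' → Fin d → ℤ, (∀ i, a i ∈ A) → (∀ i, b i ∈ B) →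
    ∑ i, a i ≠ ∑ i, b i

/-- `P` is cut out in `L` by an affine function `f`; the two open sides are `f > 0`, `f < 0`. -/
def Separates {d : ℕ} (A B : Set (Fin d → ℤ)) (L P : AffineSubspace ℝ (Fin d → ℝ)) : Prop :=
  ∃ f : (Fin d → ℝ) →ᵃ[ℝ] ℝ, (∀ x ∈ L, x ∈ P ↔ f x = 0) ∧
    ∀ s ∈ A ∪ B, emb s ∈ L → (0 < f (emb s) → s ∈ A) ∧ (f (emb s) < 0 → s ∈ B)

def ConditionH {d : ℕ} (A B : Set (Fin d → ℤ)) : Prop :=
  ∃ (k : ℕ) (H : ℕ → AffineSubspace ℝ (Fin d → ℝ)), k ≤ d ∧ H d = ⊤ ∧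
    (∀ i, k ≤ i → i ≤ d → H i ≠ ⊥ ∧ Module.finrank ℝ (H i).direction = i) ∧
    (∀ i, k ≤ i → i < d → H i ≤ H (i + 1)) ∧
    ((∀ s ∈ A ∪ B, emb s ∈ H k → s ∈ A) ∨ (∀ s ∈ A ∪ B, emb s ∈ H k → s ∈ B)) ∧
    ∀ i, k ≤ i → i < d → Separates A B (H (i + 1)) (H i)

def A0 : Set (Fin 4 → ℤ) := {![0, 0, 0, 1], ![0, 0, 1, 0], ![1, 1, 0, 0]}
def B0 : Set (Fin 4 → ℤ) := {![0, 0, 0, 0], ![0, 1, 1, 1], ![1, 0, 1, 1]}

lemma intConvex {d : ℕ} (S : Set (Fin d → ℤ)) (h : ∀ s ∈ S, ∀ i, s i = 0 ∨ s i = 1) :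
    IntConvex S := by
  intro x hx
  rw [convexHull_eq] at hx
  obtain ⟨ι, t, w, z, hw, hw1, hz, rfl⟩ := hx
  classical
  rw [← Finset.centerMass_filter_ne_zero]
  apply Finset.centerMass_mem_convexHull
  · intro i hi; exact hw i (Finset.mem_filter.1 hi).1
  · rw [Finset.sum_filter_ne_zero, hw1]; exact one_pos
  · intro j hj
    obtain ⟨hj1, hj2⟩ := Finset.mem_filter.1 hj
    obtain ⟨s, hs, hsz⟩ := hz j hj1
    refine ⟨s, ⟨hs, fun i => ?_⟩, hsz⟩
    rw [Finset.centerMass_filter_ne_zero, Finset.centerMass_eq_of_sum_1 _ _ hw1]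
    simp only [Finset.sum_apply, Pi.smul_apply, smul_eq_mul]
    have wj : 0 < w j := lt_of_le_of_ne (hw j hj1) (Ne.symm hj2)
    have z01 : ∀ l ∈ t, z l i = 0 ∨ z l i = 1 := by
      intro l hl
      obtain ⟨u, hu, huz⟩ := hz l hl
      rw [← huz]
      rcases h u hu i with e | e <;> simp [emb, e]
    have zj : z j i = (s i : ℝ) := by rw [← hsz]; rfl
    have e : ∑ l ∈ t, w l * z l i - (s i : ℝ) = ∑ l ∈ t, w l * (z l i - z j i) := by
      simp only [mul_sub, Finset.sum_sub_distrib, ← Finset.sum_mul, hw1, one_mul, zj]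
    rw [e]
    refine lt_of_le_of_lt (Finset.abs_sum_le_sum_abs _ _) ?_
    rw [← hw1]
    refine Finset.sum_lt_sum (fun l hl => ?_) ⟨j, hj1, by simpa using wj⟩
    rw [abs_mul, abs_of_nonneg (hw l hl)]
    refine mul_le_of_le_one_right (hw l hl) ?_
    rcases z01 l hl with a | a <;> rcases z01 j hj1 with b | b <;> simp [a, b]

lemma para : Parallelogram 4 A0 B0 := by
  intro k h1 h2 a b ha hb h
  have e : ∀ j, ∑ i, a i j = ∑ i, b i j := fun j => by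
    simpa [Finset.sum_apply] using congrFun h j
  have a1 : ∑ i, (a i 0 + a i 2 + a i 3) = ∑ _i : Fin k, (1 : ℤ) :=
    Finset.sum_congr rfl fun i _ => by rcases ha i with e | e | e <;> rw [e] <;> rfl
  have a2 : ∑ i, a i 0 = ∑ i, a i 1 :=
    Finset.sum_congr rfl fun i _ => by rcases ha i with e | e | e <;> rw [e] <;> rfl
  have b1 : ∑ i, b i 2 = ∑ i, (b i 0 + b i 1) :=
    Finset.sum_congr rfl fun i _ => by rcases hb i with e | e | e <;> rw [e] <;> rfl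
  have b2 : ∑ i, b i 3 = ∑ i, (b i 0 + b i 1) :=
    Finset.sum_congr rfl fun i _ => by rcases hb i with e | e | e <;> rw [e] <;> rfl
  simp only [Finset.sum_add_distrib, Finset.sum_const, Finset.card_univ, Fintype.card_fin,
    nsmul_eq_mul, mul_one] at a1 b1 b2
  have e0 := e 0
  have e1 := e 1
  have e2 := e 2
  have e3 := e 3
  omega

lemma disj : Disjoint A0 B0 := by
  rw [disjoint_left]
  rintro s (rfl | rfl | rfl) (h | h | h) <;> revert h <;> decide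

lemma step {L P : AffineSubspace ℝ (Fin 4 → ℝ)} (h : Separates A0 B0 L P)
    (hL : ∀ s ∈ A0 ∪ B0, emb s ∈ L) : ∀ s ∈ A0 ∪ B0, emb s ∈ P := by
  obtain ⟨f, hf, hs⟩ := h
  have pA : ∀ s ∈ A0, 0 ≤ f (emb s) := fun s h => not_lt.1 fun hlt =>
    disjoint_left.1 disj h ((hs s (Or.inl h) (hL s (Or.inl h))).2 hlt)
  have pB : ∀ s ∈ B0, f (emb s) ≤ 0 := fun s h => not_lt.1 fun hlt =>
    disjoint_left.1 disj ((hs s (Or.inr h) (hL s (Or.inr h))).1 hlt) h
  have dec : ∀ x, f x = f.linear x + f 0 := fun x => by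
    simpa using f.map_vadd 0 x
  have rel : 2 * f.linear (emb ![0, 0, 0, 1]) + 2 * f.linear (emb ![0, 0, 1, 0]) +
      f.linear (emb ![1, 1, 0, 0]) = 3 * f.linear (emb ![0, 0, 0, 0]) +
      f.linear (emb ![0, 1, 1, 1]) + f.linear (emb ![1, 0, 1, 1]) := by
    simp only [← smul_eq_mul, ← map_smul, ← map_add]
    congr 1
    ext i; fin_cases i <;> simp [emb] <;> norm_num
  have a1 := pA ![0, 0, 0, 1] (by simp [A0])
  have a2 := pA ![0, 0, 1, 0] (by simp [A0])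
  have a3 := pA ![1, 1, 0, 0] (by simp [A0])
  have b1 := pB ![0, 0, 0, 0] (by simp [B0])
  have b2 := pB ![0, 1, 1, 1] (by simp [B0])
  have b3 := pB ![1, 0, 1, 1] (by simp [B0])
  rw [dec] at a1 a2 a3 b1 b2 b3
  intro s h
  rw [hf _ (hL s h), dec]
  rcases h with (rfl | rfl | rfl) | (rfl | rfl | rfl) <;> linarith

theorem result :
    ¬ ∀ (d : ℕ), 1 ≤ d → ∀ A B : Set (Fin d → ℤ), (A ∪ B).Finite → IntConvex (A ∪ B) →
      A.Nonempty → B.Nonempty → Disjoint A B → Parallelogram d A B → ConditionH A B := by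
  intro h
  obtain ⟨k, H, hk, htop, -, -, hend, hsep⟩ := h 4 (by norm_num) A0 B0
    (Finite.union (by unfold A0; exact toFinite _) (by unfold B0; exact toFinite _))
    (intConvex _ (by
      rintro s ((rfl | rfl | rfl) | (rfl | rfl | rfl)) <;> decide))
    ⟨_, Or.inl rfl⟩ ⟨_, Or.inl rfl⟩ disj para
  have key : ∀ j, k + j ≤ 4 → ∀ s ∈ A0 ∪ B0, emb s ∈ H (4 - j) := by
    intro j
    induction j with
    | zero => intro _ s _; simp [htop]
    | succ j ih =>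
      intro hj
      refine step (hsep (4 - (j + 1)) (by omega) (by omega)) ?_
      rw [show 4 - (j + 1) + 1 = 4 - j by omega]
      exact ih (by omega)
  have k2 := key (4 - k) (by omega)
  rw [show 4 - (4 - k) = k by omega] at k2
  rcases hend with h | h
  · exact disjoint_left.1 disj (h _ (Or.inr (Or.inl rfl)) (k2 _ (Or.inr (Or.inl rfl))))
      (Or.inl rfl)
  · exact disjoint_left.1 disj (Or.inl rfl)
      (h _ (Or.inl (Or.inl rfl)) (k2 _ (Or.inl (Or.inl rfl))))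

end Pool.Agent.Results.MP_e13ffb_co.Counter
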